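import Pool.Agent.H53.TbQ

namespace Pool.Agent.Results.MP_bba144_nt.Q1True
open Polynomial Finset Pool.Agent.H53.TbQ

theorem result :
    (∀ (b c : ℤ) (n : ℕ), 1 ≤ n →
      (n : ℤ) ∣ ∑ j ∈ range n,
        (8 * c * j + 4 * c + b) * T b (c ^ 2) j ^ 2 * (b - 2 * c) ^ (2 * (n - 1 - j))) :=
  main.1

end Pool.Agent.Results.MP_bba144_nt.Q1True
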