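import Pool.Agent.H53.TbQ

namespace Pool.Agent.Results.MP_bba144_nt.Q2True
open Polynomial Finset Pool.Agent.H53.TbQ

theorem result :
    (∀ (b c : ℤ) (p : ℕ) [Fact p.Prime], p ≠ 2 → ¬ (p : ℤ) ∣ b * (b - 2 * c) →
      ∃ u v : ℤ, ¬ (p : ℤ) ∣ v ∧
        (∑ j ∈ range p, ((8 * c * j + 4 * c + b : ℤ) : ℚ) * (T b (c ^ 2) j : ℚ) ^ 2
            / ((b - 2 * c : ℤ) : ℚ) ^ (2 * j))
          - (p : ℚ) * ((b + 2 * c : ℤ) : ℚ) * (legendreSym p (b ^ 2 - 4 * c ^ 2) : ℚ)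
          = (p : ℚ) ^ 2 * (u : ℚ) / (v : ℚ)) :=
  main.2

end Pool.Agent.Results.MP_bba144_nt.Q2True
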